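import Pool.Agent.R789.RCMain

/-!
# MP_7f4d3c_lc, Q1: random linear codes have only scalar monomial automorphisms

For every finite field `F` (every prime power `q`) and every rate `0 < R < 1`, the proportion of
`⌊R n⌋`-dimensional subspaces `C` of `F^n` whose monomial automorphism group consists exactly of
the scalar maps tends to `1`.
-/

namespace Pool.Agent.Results.MP_7f4d3c_lc.RandomCodeAut

open Module Filter Topology
open Pool.Agent.R789.RC

/-- The monomial map `(x_1,...,x_n) ↦ (d_1 x_{π⁻¹(1)},...,d_n x_{π⁻¹(n)})`. -/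
def monomial {F : Type} [Field F] {n : ℕ} (d : Fin n → Fˣ) (π : Equiv.Perm (Fin n)) :
    (Fin n → F) →ₗ[F] (Fin n → F) where
  toFun x := fun i => (d i : F) * x (π⁻¹ i)
  map_add' x y := by funext i; simp [mul_add]
  map_smul' c x := by funext i; simp; ring

/-- The monomial automorphism group of a code `C` (as a set of linear maps). -/
def Aut {F : Type} [Field F] {n : ℕ} (C : Submodule F (Fin n → F)) :
    Set ((Fin n → F) →ₗ[F] (Fin n → F)) :=
  {φ | (∃ (d : Fin n → Fˣ) (π : Equiv.Perm (Fin n)), φ = monomial d π) ∧ C.map φ = C}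

/-- The nonzero scalar maps. -/
def Scalars (F : Type) [Field F] (n : ℕ) : Set ((Fin n → F) →ₗ[F] (Fin n → F)) :=
  {φ | ∃ c : Fˣ, φ = (c : F) • LinearMap.id}

theorem scalar_mem {F : Type} [Field F] {n : ℕ} (C : Submodule F (Fin n → F)) (c : Fˣ) :
    ((c : F) • LinearMap.id : (Fin n → F) →ₗ[F] (Fin n → F)) ∈ Aut C := by
  refine ⟨⟨fun _ => c, 1, ?_⟩, ?_⟩
  · apply LinearMap.ext
    intro x
    rfl
  · apply le_antisymm
    · rintro w ⟨x, hx, rfl⟩
      exact C.smul_mem _ hx
    · intro w hw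
      refine ⟨((c⁻¹ : Fˣ) : F) • w, C.smul_mem _ hw, ?_⟩
      simp [smul_smul]

theorem aut_iff {F : Type} [Field F] {n : ℕ} (C : Submodule F (Fin n → F)) :
    Aut C = Scalars F n ↔ Rigid C := by
  constructor
  · intro h d π hmap
    have h1 : monomial d π ∈ Aut C := ⟨⟨d, π, rfl⟩, hmap⟩
    rw [h] at h1
    exact h1
  · intro h
    apply Set.Subset.antisymm
    · rintro φ ⟨⟨d, π, rfl⟩, hmap⟩
      exact h d π hmap
    · rintro φ ⟨c, rfl⟩
      exact scalar_mem C c

theorem pow_bound : ∀ L : ℕ, 17 ≤ L → (L + 1) ^ 4 ≤ 2 ^ L := by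
  intro L hL
  induction L, hL using Nat.le_induction with
  | base => norm_num
  | succ L hL ih =>
    have h1 : (L + 1 + 1) ^ 4 ≤ 2 * (L + 1) ^ 4 := by
      obtain ⟨j, rfl⟩ := Nat.exists_eq_add_of_le hL
      ring_nf
      nlinarith [Nat.zero_le j, Nat.zero_le (j ^ 2), Nat.zero_le (j ^ 3), Nat.zero_le (j ^ 4)]
    calc (L + 1 + 1) ^ 4 ≤ 2 * (L + 1) ^ 4 := h1
      _ ≤ 2 * 2 ^ L := Nat.mul_le_mul_left _ ih
      _ = 2 ^ (L + 1) := by ring

theorem card_pos (F : Type) [Field F] [Fintype F] {n k : ℕ} (hk : k < n) :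
    0 < Nat.card {C : Submodule F (Fin n → F) // finrank F C = k} := by
  classical
  have hfr : finrank F (Fin n → F) = n := Module.finrank_fin_fun F
  have h2 := double_count (F := F) (V := Fin n → F) k (fun _ => True)
  simp only [and_true] at h2
  have h3 := dep_tuple (F := F) (V := Fin n → F) (k := k) (by rw [hfr]; exact hk)
  have h4 : (Finset.univ.filter (fun g : Fin k → (Fin n → F) => LinearIndependent F g)).card +
      (Finset.univ.filter (fun g : Fin k → (Fin n → F) => ¬ LinearIndependent F g)).card =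
      (Fintype.card F) ^ (finrank F (Fin n → F) * k) := by
    rw [Finset.card_filter_add_card_filter_not, Finset.card_univ, Fintype.card_fun,
      Fintype.card_fin, Module.card_eq_pow_finrank (K := F) (V := Fin n → F), pow_mul]
  have h5 : 0 < (Fintype.card F) ^ (finrank F (Fin n → F) * k) :=
    Nat.pow_pos Fintype.card_pos
  by_contra hc
  have hc' : Nat.card {C : Submodule F (Fin n → F) // finrank F C = k} = 0 := by omega
  rw [hc', zero_mul] at h2
  have h6 : (Finset.univ.filter (fun g : Fin k → (Fin n → F) => LinearIndependent F g)).card =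
      0 := by
    rw [h2]
  have h7 : (Finset.univ.filter (fun g : Fin k → (Fin n → F) =>
      ¬ LinearIndependent F g)).card * 2 ≤ (Fintype.card F) ^ (finrank F (Fin n → F) * k) := by
    rw [mul_comm]
    convert h3
  omega

theorem ratio_bound (F : Type) [Field F] [Fintype F] {n k L K : ℕ} (hn : n ≤ 2 ^ L)
    (hL4 : L ^ 4 ≤ n) (hKL : 11 * K ≤ L) (hK : 1 ≤ K) (hk : n ≤ K * k) (hnk : n ≤ K * (n - k))
    (hkn : k < n) :
    1 - 8 / 2 ^ L ≤ (Nat.card {C : Submodule F (Fin n → F) // finrank F C = k ∧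
        Aut C = Scalars F n} : ℝ) /
        (Nat.card {C : Submodule F (Fin n → F) // finrank F C = k} : ℝ) ∧
      (Nat.card {C : Submodule F (Fin n → F) // finrank F C = k ∧ Aut C = Scalars F n} : ℝ) /
        (Nat.card {C : Submodule F (Fin n → F) // finrank F C = k} : ℝ) ≤ 1 := by
  classical
  have hpos : (0 : ℝ) < (Nat.card {C : Submodule F (Fin n → F) // finrank F C = k} : ℝ) := by
    exact_mod_cast card_pos F hkn
  have hmain := main_est (F := F) hn hL4 hKL hK hk hnk hkn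
  have hsum : Nat.card {C : Submodule F (Fin n → F) // finrank F C = k ∧ Aut C = Scalars F n} +
      Nat.card {C : Submodule F (Fin n → F) // finrank F C = k ∧ ¬ Rigid C} =
      Nat.card {C : Submodule F (Fin n → F) // finrank F C = k} := by
    have _i : Fintype (Submodule F (Fin n → F)) := Fintype.ofFinite _
    rw [Nat.card_eq_fintype_card, Nat.card_eq_fintype_card, Nat.card_eq_fintype_card,
      Fintype.card_subtype, Fintype.card_subtype, Fintype.card_subtype,
      ← Finset.card_filter_add_card_filter_not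
        (s := Finset.univ.filter (fun C : Submodule F (Fin n → F) => finrank F C = k))
        (fun C => Aut C = Scalars F n), Finset.filter_filter, Finset.filter_filter]
    congr 2
    ext C
    simp only [Finset.mem_filter, Finset.mem_univ, true_and, aut_iff]
  have hsumR : (Nat.card {C : Submodule F (Fin n → F) // finrank F C = k ∧
      Aut C = Scalars F n} : ℝ) +
      (Nat.card {C : Submodule F (Fin n → F) // finrank F C = k ∧ ¬ Rigid C} : ℝ) =
      (Nat.card {C : Submodule F (Fin n → F) // finrank F C = k} : ℝ) := by exact_mod_cast hsum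
  have hnn : (0 : ℝ) ≤
      (Nat.card {C : Submodule F (Fin n → F) // finrank F C = k ∧ ¬ Rigid C} : ℝ) :=
    Nat.cast_nonneg _
  constructor
  · rw [le_div_iff₀ hpos]
    nlinarith
  · rw [div_le_one hpos]
    linarith

/-- For every finite field `F` and every rate `0 < R < 1`, the proportion of the
`⌊R n⌋`-dimensional codes `C ≤ F^n` whose monomial automorphism group is exactly the group of
nonzero scalar maps tends to `1` as `n → ∞`. -/
theorem result (F : Type) [Field F] [Fintype F] (R : ℝ) (hR0 : 0 < R) (hR1 : R < 1) :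
    Tendsto (fun n : ℕ =>
      (Nat.card {C : Submodule F (Fin n → F) // finrank F C = ⌊R * n⌋₊ ∧
        Aut C = Scalars F n} : ℝ) /
      (Nat.card {C : Submodule F (Fin n → F) // finrank F C = ⌊R * n⌋₊} : ℝ))
      atTop (𝓝 1) := by
  set ρ := min R (1 - R) with hρ
  have hρ0 : 0 < ρ := lt_min hR0 (by linarith)
  obtain ⟨K, hK⟩ := exists_nat_ge (2 / ρ)
  have hKρ : 2 ≤ (K : ℝ) * ρ := by rwa [div_le_iff₀ hρ0] at hK
  have hK1 : 1 ≤ K := by
    by_contra hc
    have : K = 0 := by omega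
    rw [this] at hKρ
    norm_num at hKρ
  have hKR : 2 ≤ (K : ℝ) * R :=
    hKρ.trans (mul_le_mul_of_nonneg_left (min_le_left _ _) (Nat.cast_nonneg _))
  have hKR' : 2 ≤ (K : ℝ) * (1 - R) :=
    hKρ.trans (mul_le_mul_of_nonneg_left (min_le_right _ _) (Nat.cast_nonneg _))
  let Lf : ℕ → ℕ := fun n => Nat.sqrt (Nat.sqrt n)
  have hLf : Tendsto Lf atTop atTop := by
    rw [tendsto_atTop]
    intro a
    rw [eventually_atTop]
    refine ⟨(a * a) * (a * a), fun n hn => ?_⟩
    show a ≤ Nat.sqrt (Nat.sqrt n)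
    rw [Nat.le_sqrt, Nat.le_sqrt]
    exact hn
  have hlow : Tendsto (fun n : ℕ => (1 : ℝ) - 8 / 2 ^ (Lf n)) atTop (𝓝 1) := by
    have h1 : Tendsto (fun L : ℕ => (8 : ℝ) / 2 ^ L) atTop (𝓝 0) := by
      have h2 : Tendsto (fun L : ℕ => ((1 / 2 : ℝ)) ^ L) atTop (𝓝 0) :=
        tendsto_pow_atTop_nhds_zero_of_lt_one (by norm_num) (by norm_num)
      have h3 := h2.const_mul 8
      rw [mul_zero] at h3
      refine h3.congr fun L => ?_
      rw [one_div, inv_pow]
      rfl
    have h4 := (h1.comp hLf).const_sub 1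
    rw [sub_zero] at h4
    exact h4
  have hev : ∀ᶠ n : ℕ in atTop, 1 - 8 / 2 ^ (Lf n) ≤
      (Nat.card {C : Submodule F (Fin n → F) // finrank F C = ⌊R * n⌋₊ ∧
        Aut C = Scalars F n} : ℝ) /
        (Nat.card {C : Submodule F (Fin n → F) // finrank F C = ⌊R * n⌋₊} : ℝ) ∧
      (Nat.card {C : Submodule F (Fin n → F) // finrank F C = ⌊R * n⌋₊ ∧
        Aut C = Scalars F n} : ℝ) /
        (Nat.card {C : Submodule F (Fin n → F) // finrank F C = ⌊R * n⌋₊} : ℝ) ≤ 1 := by
    obtain ⟨N0, hN0⟩ := exists_nat_ge (2 / R)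
    filter_upwards [hLf.eventually_ge_atTop (max (11 * K) 17), eventually_ge_atTop (max N0 1)]
      with n hnL hnN
    have hn0 : N0 ≤ n := (le_max_left _ _).trans hnN
    have hn1 : 1 ≤ n := (le_max_right _ _).trans hnN
    have hnR : 2 ≤ R * n := by
      have h1 : 2 / R ≤ (n : ℝ) := hN0.trans (by exact_mod_cast hn0)
      rw [div_le_iff₀ hR0] at h1
      linarith
    have hnpos : (0 : ℝ) < n := by exact_mod_cast hn1
    have hfl1 : (⌊R * n⌋₊ : ℝ) ≤ R * n := Nat.floor_le (by positivity)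
    have hfl2 : R * n < (⌊R * n⌋₊ : ℝ) + 1 := Nat.lt_floor_add_one _
    have hkn : ⌊R * n⌋₊ < n := by
      have : (⌊R * n⌋₊ : ℝ) < n := by nlinarith
      exact_mod_cast this
    have hL17 : 17 ≤ Lf n := (le_max_right _ _).trans hnL
    have hn2 : n ≤ 2 ^ (Lf n) := by
      refine le_trans ?_ (pow_bound _ hL17)
      have h1 : Nat.sqrt n < (Lf n + 1) * (Lf n + 1) := Nat.sqrt_lt.1 (Nat.lt_succ_self _)
      have h2 : n < (Nat.sqrt n + 1) * (Nat.sqrt n + 1) := Nat.sqrt_lt.1 (Nat.lt_succ_self _)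
      calc n ≤ (Nat.sqrt n + 1) * (Nat.sqrt n + 1) := h2.le
        _ ≤ ((Lf n + 1) * (Lf n + 1)) * ((Lf n + 1) * (Lf n + 1)) :=
          Nat.mul_le_mul h1 h1
        _ = (Lf n + 1) ^ 4 := by ring
    have hL4 : (Lf n) ^ 4 ≤ n := by
      have h1 : Lf n * Lf n ≤ Nat.sqrt n := Nat.sqrt_le _
      have h2 : Nat.sqrt n * Nat.sqrt n ≤ n := Nat.sqrt_le _
      calc (Lf n) ^ 4 = (Lf n * Lf n) * (Lf n * Lf n) := by ring
        _ ≤ Nat.sqrt n * Nat.sqrt n := Nat.mul_le_mul h1 h1
        _ ≤ n := h2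
    refine ratio_bound F hn2 hL4 ((le_max_left _ _).trans hnL) hK1 ?_ ?_ hkn
    · have : (n : ℝ) ≤ (K : ℝ) * (⌊R * n⌋₊ : ℝ) := by
        have h1 : R * n / 2 ≤ (⌊R * n⌋₊ : ℝ) := by linarith
        have h2 : (K : ℝ) * (R * n / 2) ≤ (K : ℝ) * (⌊R * n⌋₊ : ℝ) :=
          mul_le_mul_of_nonneg_left h1 (Nat.cast_nonneg _)
        nlinarith
      exact_mod_cast this
    · have h0 : ((n - ⌊R * n⌋₊ : ℕ) : ℝ) = (n : ℝ) - (⌊R * n⌋₊ : ℝ) := Nat.cast_sub hkn.le
      have : (n : ℝ) ≤ (K : ℝ) * ((n - ⌊R * n⌋₊ : ℕ) : ℝ) := by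
        rw [h0]
        have h1 : (1 - R) * n ≤ (n : ℝ) - (⌊R * n⌋₊ : ℝ) := by linarith
        have h2 : (K : ℝ) * ((1 - R) * n) ≤ (K : ℝ) * ((n : ℝ) - (⌊R * n⌋₊ : ℝ)) :=
          mul_le_mul_of_nonneg_left h1 (Nat.cast_nonneg _)
        nlinarith
      exact_mod_cast this
  refine tendsto_of_tendsto_of_tendsto_of_le_of_le' hlow tendsto_const_nhds
    (hev.mono fun n h => h.1) (hev.mono fun n h => h.2)

end Pool.Agent.Results.MP_7f4d3c_lc.RandomCodeAut
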